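import Pool.Agent.Run7.h352.RL.Main

set_option autoImplicit false

/-!
# MP_f1d0b6_nt: reflective lattices `2U + L(-1)` of signature (2,22)

`G` is the Gram matrix of an even positive definite lattice `L` of rank 20, `gramM G` is the Gram
matrix of `M = 2U + L(-1)`.  If `M` is reflective, with respect to an arbitrary component of the
domain, then `L` is in the genus of `2E_8 + D_4`.

Proof: Fourier-Jacobi expansion of the reflective form; the quotient of the first two nonzero
coefficients is a weak Jacobi form of weight 0 and index `m`; a growth estimate on slices and a
vanishing theorem for vector valued modular forms of negative weight show `m = 1`; a differential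
operator of order two maps the theta components to a form of weight -6 which vanishes for the same
reason; so the theta components solve a linear differential equation of order two, which forces all
nonzero classes of the discriminant group to have odd norm; such a lattice has determinant four and
its genus is determined.
-/

namespace Pool.Agent.Results.MP_f1d0b6_nt.ReflectiveGenus

open Pool.Agent.Y813.Refl

/-- **Reflective lattices `2U + L(-1)` of signature (2,22): the lattice `L` lies in the genus of
`2E_8 + D_4`.** -/
theorem result (G : Matrix (Fin 20) (Fin 20) ℤ) (hsymm : G.IsSymm) (heven : ∀ i, Even (G i i))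
    (hpos : ∀ x : Fin 20 → ℝ, x ≠ 0 → 0 < form G x x)
    (Z₀ : Fin 4 ⊕ Fin 20 → ℂ) (hZ₀ : Z₀ ∈ quadric (gramM G))
    (hrefl : IsReflectiveLattice (gramM G) (connectedComponentIn (quadric (gramM G)) Z₀)) :
    SameGenus G gramEED :=
  Pool.Agent.Run7.h352.RL.reflective_genus G hsymm heven hpos Z₀ hZ₀ hrefl

end Pool.Agent.Results.MP_f1d0b6_nt.ReflectiveGenus
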